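import Pool.Agent.X67.SD.Num

/-!
# MP_38bec9_co, Q1: the answer is no

There are graphs of separation dimension at most `98` for which the number of planes of a
separating embedding in three-space is arbitrarily large; hence no function `f` bounds `π₃` in
terms of `π`.

The graphs are the unions of `49` perfect matchings between seven classes of `n` vertices on the
left and seven classes of `n` vertices on the right. All of them have separation dimension at most
`98`. Their number is `n! ^ 49`. If they had separating embeddings for `M` planes, then cutting the
orders of the vertices into `2 ^ h` levels, each graph would be compatible with one of the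
functions from the vertices to the `M`-tuples of levels whose image has at most
`(M * 2 ^ h + 1) ^ 3` elements (by the Sauer-Shelah lemma, because four vectors in three-space are
linearly dependent), and there are not enough codes.
-/

set_option autoImplicit false

namespace Pool.Agent.Results.MP_38bec9_co.NoBoundForPlanes

open Pool.Agent.X67.SD

/-- **Q1 has a negative answer.** First part: for each `M` there is a finite graph with separation
dimension at most `98` all of whose separating embeddings in three-space need more than `M`
planes. Second part: no function `f` satisfies `π₃(G) ≤ f (π(G))` for all finite graphs. -/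
theorem result :
    (∀ M : ℕ, ∃ (V : Type) (_ : Fintype V) (G : SimpleGraph V),
      sepDim G ≤ 98 ∧ (∃ F : Fin 98 → LinearOrder V, PairwiseSuitable G F) ∧
      (M : ℕ∞) < pi3 G) ∧
    ¬ ∃ f : ℕ → ℕ, ∀ (V : Type) [Fintype V] (G : SimpleGraph V), pi3 G ≤ (f (sepDim G) : ℕ∞) := by
  have main' : ∀ M : ℕ, ∃ (V : Type) (_ : Fintype V) (G : SimpleGraph V),
      sepDim G ≤ 98 ∧ (∃ F : Fin 98 → LinearOrder V, PairwiseSuitable G F) ∧
      (M : ℕ∞) < pi3 G := by
    intro M
    obtain ⟨n, σ, h1, h2⟩ := main M
    exact ⟨Vx n, inferInstance, graph σ, h1, suitable σ, h2⟩
  refine ⟨main', ?_⟩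
  rintro ⟨f, hf⟩
  obtain ⟨V, hV, G, h1, _, h2⟩ := main' ((Finset.range 99).sup f)
  have h3 := hf V G
  have h4 : f (sepDim G) ≤ (Finset.range 99).sup f :=
    Finset.le_sup (Finset.mem_range.2 (by omega))
  have h5 : ((f (sepDim G) : ℕ) : ℕ∞) ≤ (((Finset.range 99).sup f : ℕ) : ℕ∞) := by
    exact_mod_cast h4
  exact absurd (h3.trans h5) (not_le.2 h2)

end Pool.Agent.Results.MP_38bec9_co.NoBoundForPlanes
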